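import Mathlib
import Pool.Agent.Helper149.Beps.CplxB

/-!
MP_f92ad0_an, Q1: for each of the two scalar fields `ℝ` and `ℂ` a Banach space with the extension
property for operators into `ℓ₂` which does not have type 2.
-/

set_option autoImplicit false

namespace Pool.Agent.Results.MP_f92ad0_an.EPNotType2Both

open Pool.Agent.Helper579.Beps Pool.Agent.Helper149.Beps

/-- The extension property `EP(Z)` of a normed space `X` over `𝕜` (`𝕜 = ℝ` or `ℂ`): every bounded
operator from a closed subspace of `X` to `Z` extends to a bounded operator on `X`. -/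
def EP (𝕜 X Z : Type) [RCLike 𝕜] [NormedAddCommGroup X] [NormedSpace 𝕜 X] [NormedAddCommGroup Z]
    [NormedSpace 𝕜 Z] : Prop :=
  ∀ Y : Submodule 𝕜 X, IsClosed (Y : Set X) → ∀ g : Y →L[𝕜] Z,
    ∃ f : X →L[𝕜] Z, ∀ y : Y, f y = g y

/-- (Rademacher) type 2: the expectation over independent random signs is the average over all
sign patterns. -/
def HasType2 (X : Type) [NormedAddCommGroup X] : Prop :=
  ∃ C : ℝ, ∀ (n : ℕ) (x : Fin n → X),
    √((∑ ε : Fin n → Bool, ‖∑ i, (if ε i then x i else -x i)‖ ^ 2) / 2 ^ n)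
      ≤ C * √(∑ i, ‖x i‖ ^ 2)

/-- **Main theorem.** There is a real Banach space, and there is a complex Banach space, with
`EP(ℓ₂)` which does not have type 2. -/
theorem result :
    (∃ (X : Type) (_ : NormedAddCommGroup X) (_ : NormedSpace ℝ X) (_ : CompleteSpace X),
      EP ℝ X (lp (fun _ : ℕ => ℝ) 2) ∧ ¬ HasType2 X) ∧
    (∃ (X : Type) (_ : NormedAddCommGroup X) (_ : NormedSpace ℂ X) (_ : CompleteSpace X),
      EP ℂ X (lp (fun _ : ℕ => ℂ) 2) ∧ ¬ HasType2 X) := by
  obtain ⟨X, i1, i2, i3, h1, h2, h3⟩ := main_space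
  refine ⟨⟨X, i1, i2, i3, ?_, far_not_type2 h3⟩,
    ⟨XC X, inferInstance, inferInstance, inferInstance, ?_, far_not_type2 (far_XC h3)⟩⟩
  · intro Y _ g
    exact Pool.Agent.Helper965.Beps.ep_of_qstar 861 h1 Y g
  · intro Y _ g
    exact ep_complex (861 * 2) (qstar_XC (by norm_num) h2) Y g

end Pool.Agent.Results.MP_f92ad0_an.EPNotType2Both
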